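import Pool.Agent.helper12.PFS.Spec

/-!
# Almost perfect starters (MP_16a903_co): row WKB
-/

set_option autoImplicit false

namespace Pool.Agent.PFS

lemma WKB_kap_append {E F : Type} [Field F] [DecidableEq E] (l : E → F) (W : List (Step E F))
    (s : Step E F) (e : E) :
    kap l (W ++ [s]) e = mu l s * kap l W e + (if s.e = e then cw l s else 0) := by
  induction W with
  | nil => simp [kap]
  | cons a W ih =>
    rw [List.cons_append, kap, kap, ih, List.map_append, List.prod_append]
    simp only [List.map_cons, List.map_nil, List.prod_cons, List.prod_nil, mul_one]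
    split_ifs <;> ring

lemma WKB_sum {E F V : Type} [Field F] [AddCommGroup V] [Module F V] [DecidableEq E] [Fintype E]
    (l : E → F) (W : List (Step E F)) (s : Step E F) (c : E → V) :
    ∑ e, kap l (W ++ [s]) e • c e = mu l s • (∑ e, kap l W e • c e) + cw l s • c s.e := by
  have h1 : ∀ e, kap l (W ++ [s]) e • c e =
      mu l s • (kap l W e • c e) + (if s.e = e then cw l s • c e else 0) := by
    intro e
    rw [WKB_kap_append, add_smul, mul_smul]
    congr 1
    split_ifs
    · rfl
    · rw [zero_smul]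
  rw [Finset.sum_congr rfl (fun e _ => h1 e), Finset.sum_add_distrib, ← Finset.smul_sum,
    Finset.sum_ite_eq]
  simp

lemma WKB_mu {E F : Type} [Field F] (l : E → F) (hl : ∀ x, l x ≠ 0) (s : Step E F) :
    mu l s ≠ 0 := by
  unfold mu
  split_ifs
  · exact hl _
  · exact inv_ne_zero (hl _)

section

variable {X V F : Type} [DecidableEq X] [Field F] [AddCommGroup V] [Module F V]

omit [DecidableEq X] in
/-- the fibre map in terms of the step -/
lemma WKB_fm (τ : X → X) (r : X → Bool) (l : X → F) (c : X → V) (x : X) (u : V) (w : F) :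
    w • fm τ r l c x u =
      (w * mu l (⟨rep τ r x, r x, w⟩ : Step X F)) • u +
        cw l (⟨rep τ r x, r x, w⟩ : Step X F) • c (rep τ r x) := by
  unfold fm rep mu cw
  cases hr : r x
  · simp only [Bool.false_eq_true, if_false]
    rw [smul_sub, smul_sub, smul_smul, smul_smul, neg_smul, sub_eq_add_neg]
  · simp only [if_true]
    rw [smul_add, smul_smul]

lemma WKB_even (o : X) (τ : X → X) (r : X → Bool) (T : X ≃ X) (α : Fˣ) (t : X → V) (sV : V → V)
    (l : X → F) (n : ℕ) (hx : T.symm (zz o τ T (2 * n)) ≠ o) :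
    ∃ k : V, ∀ (c : X → V) (u : V),
      tl T α t (lft o τ r sV l c ((tl T α t).symm (zz o τ T (2 * n), u))) =
        (zz o τ T (2 * n + 1), mu l (stp o τ r T (α : F) (2 * n)) • u +
          cw l (stp o τ r T (α : F) (2 * n)) • c (stp o τ r T (α : F) (2 * n)).e + k) := by
  set z := zz o τ T (2 * n) with hz
  set x := T.symm z with hx'
  have hs : stp o τ r T (α : F) (2 * n) = ⟨rep τ r x, r x, (α : F)⟩ := by
    unfold stp
    rw [if_pos (by omega)]
  have hz1 : zz o τ T (2 * n + 1) = T (τ x) := by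
    change (if (2 * n) % 2 = 0 then T (τ (T.symm (zz o τ T (2 * n)))) else τ (zz o τ T (2 * n))) = _
    rw [if_pos (by omega)]
  refine ⟨t (τ x) - mu l (⟨rep τ r x, r x, (α : F)⟩ : Step X F) • t x, fun c u => ?_⟩
  rw [hs, hz1]
  have h1 : (tl T α t).symm (z, u) = (x, α⁻¹ • (u - t x)) := rfl
  have h2 : lft o τ r sV l c (x, α⁻¹ • (u - t x)) =
      (τ x, fm τ r l c x (α⁻¹ • (u - t x))) := by
    unfold lft
    rw [if_neg hx]
  have h3 : tl T α t (τ x, fm τ r l c x (α⁻¹ • (u - t x))) =
      (T (τ x), α • fm τ r l c x (α⁻¹ • (u - t x)) + t (τ x)) := rfl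
  rw [h1, h2, h3]
  congr 1
  have h4 : α • fm τ r l c x (α⁻¹ • (u - t x)) =
      (α : F) • fm τ r l c x ((α : F)⁻¹ • (u - t x)) := by
    rw [Units.smul_def, Units.smul_def, Units.val_inv_eq_inv_val]
  rw [h4, WKB_fm, smul_smul]
  have h5 : (α : F) * mu l (⟨rep τ r x, r x, (α : F)⟩ : Step X F) * (α : F)⁻¹ =
      mu l (⟨rep τ r x, r x, (α : F)⟩ : Step X F) := by
    have : (α : F) ≠ 0 := α.ne_zero
    field_simp
  rw [h5, smul_sub]
  abel

lemma WKB_odd (o : X) (τ : X → X) (r : X → Bool) (T : X ≃ X) (α : F) (sV : V → V)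
    (l : X → F) (n : ℕ) (hx : zz o τ T (2 * n + 1) ≠ o) (c : X → V) (u : V) :
      lft o τ r sV l c (zz o τ T (2 * n + 1), u) =
        (zz o τ T (2 * n + 2), mu l (stp o τ r T α (2 * n + 1)) • u +
          cw l (stp o τ r T α (2 * n + 1)) • c (stp o τ r T α (2 * n + 1)).e) := by
  set z := zz o τ T (2 * n + 1) with hz
  have hs : stp o τ r T α (2 * n + 1) = ⟨rep τ r z, r z, 1⟩ := by
    unfold stp
    rw [if_neg (by omega)]
  have hz1 : zz o τ T (2 * n + 2) = τ z := by
    change (if (2 * n + 1) % 2 = 0 then T (τ (T.symm (zz o τ T (2 * n + 1))))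
      else τ (zz o τ T (2 * n + 1))) = _
    rw [if_neg (by omega)]
  rw [hs, hz1]
  have h2 : lft o τ r sV l c (z, u) = (τ z, fm τ r l c z u) := by
    unfold lft
    rw [if_neg hx]
  rw [h2]
  congr 1
  have := WKB_fm τ r l c z u (1 : F)
  rw [one_smul, one_mul] at this
  exact this

end

theorem WKB : WKB_stmt := by
  intro X V F _ _ _ _ _ o τ r T α t h sV l _ _ hC hl
  have hclaim : ∀ n : ℕ, n ≤ h → ∃ (Λ : Fˣ) (k0 : V), ∀ (c : X → V) (u : V),
      (rho (lft o τ r sV l c) (tl T α t))^[n] (o, u) =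
        (zz o τ T (2 * n), Λ • u +
          ∑ e, kap l ((List.range (2 * n)).map (stp o τ r T (α : F))) e • c e + k0) := by
    intro n
    induction n with
    | zero =>
      intro _
      refine ⟨1, 0, fun c u => ?_⟩
      have h0 : zz o τ T (2 * 0) = o := rfl
      have h1 : ((List.range (2 * 0)).map (stp o τ r T (α : F))) = [] := rfl
      rw [h0, h1, Function.iterate_zero, id_eq, one_smul, add_zero]
      have h2 : ∑ e : X, kap l ([] : List (Step X F)) e • c e = 0 :=
        Finset.sum_eq_zero fun e _ => by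
          have : kap l ([] : List (Step X F)) e = 0 := rfl
          rw [this, zero_smul]
      rw [h2, add_zero]
    | succ n ih =>
      intro hn
      obtain ⟨Λ, k0, hΛ⟩ := ih (by omega)
      have hx1 : T.symm (zz o τ T (2 * n)) ≠ o := by
        intro h0
        have h1 : zz o τ T (2 * n) = T o := (Equiv.symm_apply_eq T).1 h0
        have h2 := hC.inj (2 * n) (2 * h) (by omega) le_rfl (h1.trans hC.last.symm)
        omega
      have hx2 : zz o τ T (2 * n + 1) ≠ o := by
        intro h0
        have h1 : zz o τ T (2 * n + 1) = zz o τ T 0 := h0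
        have h2 := hC.inj (2 * n + 1) 0 (by omega) (by omega) h1
        omega
      obtain ⟨k, hk⟩ := WKB_even o τ r T α t sV l n hx1
      set s1 := stp o τ r T (α : F) (2 * n) with hs1
      set s2 := stp o τ r T (α : F) (2 * n + 1) with hs2
      refine ⟨Units.mk0 (mu l s2) (WKB_mu l hl s2) * Units.mk0 (mu l s1) (WKB_mu l hl s1) * Λ,
        mu l s2 • (mu l s1 • k0 + k), fun c u => ?_⟩
      rw [Function.iterate_succ_apply', hΛ c u]
      have hr : ∀ v, rho (lft o τ r sV l c) (tl T α t) v =
        lft o τ r sV l c (tl T α t (lft o τ r sV l c ((tl T α t).symm v))) := fun _ => rfl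
      rw [hr, hk c, WKB_odd o τ r T (α : F) sV l n hx2 c]
      have hW : (List.range (2 * (n + 1))).map (stp o τ r T (α : F)) =
          ((List.range (2 * n)).map (stp o τ r T (α : F)) ++ [s1]) ++ [s2] := by
        rw [show 2 * (n + 1) = 2 * n + 1 + 1 by ring, List.range_succ, List.range_succ,
          List.map_append, List.map_append]
        rfl
      rw [hW, WKB_sum, WKB_sum]
      congr 1
      rw [← hs2, mul_smul, mul_smul]
      simp only [Units.smul_def, Units.val_mk0, smul_add]
      abel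
  obtain ⟨Λ, k0, hΛ⟩ := hclaim h le_rfl
  refine ⟨Λ, k0, fun c u => ?_⟩
  rw [hΛ c u, hC.last]

end Pool.Agent.PFS
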